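import Pool.Agent.U896.LS.G2

/-!
# Two-forms which are closed up to a positive factor: the main theorem
-/

set_option autoImplicit false

open Set Filter Topology MeasureTheory
open scoped Manifold ContDiff

noncomputable section

namespace Pool.Agent.U896.LSP

open Pool.Agent.Y501
open Pool.Agent.Y501.SYP
open Pool.Agent.U896.SEP

section

variable {d : ℕ} {X : Type} [TopologicalSpace X] [ChartedSpace (ES d) X]

theorem smallAll_mono {J : End (ES d) X} {C C' : Set X} {z : X} (h : C' ⊆ C)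
    (hC : SmallAll J C z) : SmallAll J C' z := by
  rcases hC with ⟨N, hN, h0⟩ | h1 | ⟨n, a, b, hab, hpos⟩
  · refine Or.inl ⟨N, hN, measure_mono_null (image_mono ?_) h0⟩
    exact inter_subset_inter_left _ (inter_subset_inter_left _ h)
  · refine Or.inr (Or.inl fun v hv hJv => h1 v ?_ ?_)
    · exact fun g hg hg0 => hv g hg fun x hx => hg0 x (h hx)
    · exact fun g hg hg0 => hJv g hg fun x hx => hg0 x (h hx)
  · refine Or.inr (Or.inr ⟨n, a, b, fun i => ⟨(hab i).smooth_a, (hab i).smooth_b, ?_⟩, hpos⟩)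
    obtain ⟨N, hN, h0⟩ := (hab i).null
    exact ⟨N, hN, measure_mono_null (image_mono (inter_subset_inter_left _ h)) h0⟩

attribute [local instance] cs mf

theorem confE [IsManifold 𝓘(ℝ, ES d) ∞ X] [CompactSpace X] [T2Space X] [SimplyConnectedSpace X]
    (hd : 4 ≤ d) (J : End (ES d) X) (hJ : IsAlmostComplex J) (K : Set X) (hK : IsClosed K)
    (hH : ∀ x₀ : X, μH[(d : ℝ) - 3] (chartAt (ES d) x₀ '' (K ∩ (chartAt (ES d) x₀).source)) = 0)
    (σ : Form (ES d) X 2) (θ : Form (ES d) X 1) (hσ : ConfClosedOff σ θ K)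
    (hb : ∀ x ∈ K, BoundedEccNear σ J K x)
    (hpos : ∀ x, x ∉ K → ∀ v : TangentSpace 𝓘(ℝ, ES d) x, 0 ≤ qd σ J x v)
    (hsmall : ∀ z ∈ K ∪ Crit σ J K, SmallAll J (connectedComponentIn (K ∪ Crit σ J K) z) z) :
    ∃ f : X → ℝ, (∀ x, 0 < f x) ∧ ClosedOff (scale f σ) K ∧
      ∀ U : Set X, IsOpen U → K ⊆ U →
        ∃ (α : Form (ES d) X 1) (η w : Form (ES d) X 2), IsSmooth α ∧ IsSmooth η ∧ IsD α η ∧
          IsTamingSymplectic w J ∧ ∀ x, x ∉ U → w x = addF (scale f σ) η x := by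
  have hlp : LocallyPathConnectedSpace (SY.E d) :=
    (inferInstance : LocallyPathConnectedSpace (EuclideanSpace ℝ (Fin d)))
  have hlpX : LocallyPathConnectedSpace X := ChartedSpace.locallyPathConnectedSpace (SY.E d) X
  have hc : LS.Cod2 (d := d) K := by
    refine ⟨d - 2, by omega, fun x => ?_⟩
    refine SE.haus_mono ?_ (hH x)
    rw [Nat.cast_sub (by omega)]
    push_cast
    linarith
  have hσs : SY.SmoothOff (d := d) (X := X) σ K := fun U φ hU hφ hp => (hσ U φ ⟨hU, hφ⟩ hp).1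
  have hθs : SY.SmoothOff (d := d) (X := X) θ K := fun U φ hU hφ hp => (hσ U φ ⟨hU, hφ⟩ hp).2.1
  have hθc : SY.IsDOff (d := d) (X := X) θ 0 K := by
    intro U φ hU hφ hp p hpU
    exact ((hσ U φ ⟨hU, hφ⟩ hp).2.2 p hpU).1.trans
      (congrFun (SY.pb_zero (d := d) (X := X) (k := 2) φ) p).symm
  obtain ⟨F, hF⟩ := LS.glob_prim (d := d) (X := X) hK hc hθs hθc
  obtain ⟨h1, h2⟩ := LS.exp_closed (d := d) (X := X) hσs hθs
    (fun U φ hU hφ hp p hpU => ((hσ U φ ⟨hU, hφ⟩ hp).2.2 p hpU).2) hF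
  have hcl : ClosedOff (fun x => Real.exp (-F x) • σ x : Form (ES d) X 2) K := by
    intro U φ hφ hp
    refine ⟨h1 U φ hφ.1 hφ.2 hp, fun p hpU => ?_⟩
    exact (h2 U φ hφ.1 hφ.2 hp p hpU).trans
      (congrFun (SY.pb_zero (d := d) (X := X) (k := 3) φ) p)
  have hpb : ∀ (x : X) (p : ES d), pb (chartAt (ES d) x).symm
      (fun x => Real.exp (-F x) • σ x : Form (ES d) X 2) p =
      Real.exp (-F ((chartAt (ES d) x).symm p)) • pb (chartAt (ES d) x).symm σ p :=
    fun x p => rfl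
  have hecc : ∀ x ∈ K, EccNear (fun x => Real.exp (-F x) • σ x : Form (ES d) X 2) J K x := by
    intro x hx
    obtain ⟨c, hc0, h3⟩ := hb x hx
    refine ⟨c, hc0, 0, ?_⟩
    filter_upwards [h3] with p hp hpK v
    have h4 := hp hpK v
    rw [hpb]
    have h5 : 0 < Real.exp (-F ((chartAt (ES d) x).symm p)) := Real.exp_pos _
    have h6 : ‖Real.exp (-F ((chartAt (ES d) x).symm p)) • pb (chartAt (ES d) x).symm σ p‖ =
        Real.exp (-F ((chartAt (ES d) x).symm p)) * ‖pb (chartAt (ES d) x).symm σ p‖ := by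
      rw [norm_smul, Real.norm_of_nonneg h5.le]
    rw [h6, sub_zero]
    change c * (Real.exp (-F ((chartAt (ES d) x).symm p)) * ‖pb (chartAt (ES d) x).symm σ p‖) *
      ‖v‖ ^ 2 ≤ Real.exp (-F ((chartAt (ES d) x).symm p)) *
        pb (chartAt (ES d) x).symm σ p ![v, inChart J x p v]
    calc c * (Real.exp (-F ((chartAt (ES d) x).symm p)) * ‖pb (chartAt (ES d) x).symm σ p‖) *
          ‖v‖ ^ 2 = Real.exp (-F ((chartAt (ES d) x).symm p)) *
            (c * ‖pb (chartAt (ES d) x).symm σ p‖ * ‖v‖ ^ 2) := by ring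
      _ ≤ _ := mul_le_mul_of_nonneg_left h4 h5.le
  have hpos' : ∀ x, x ∉ K → ∀ v : TangentSpace 𝓘(ℝ, ES d) x,
      0 ≤ qd (fun x => Real.exp (-F x) • σ x : Form (ES d) X 2) J x v := by
    intro x hx v
    change 0 ≤ Real.exp (-F x) * σ x ![v, J x v]
    exact mul_nonneg (Real.exp_pos _).le (hpos x hx v)
  have hcrit : Crit (fun x => Real.exp (-F x) • σ x : Form (ES d) X 2) J K ⊆ K ∪ Crit σ J K := by
    intro x hx
    by_cases hxK : x ∈ K
    · exact Or.inl hxK
    refine Or.inr fun hut => hx ?_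
    obtain ⟨c, hc0, h3⟩ := hut
    have hO : IsOpen ((chartAt (SY.E d) x).target ∩ (chartAt (SY.E d) x).symm ⁻¹' Kᶜ) :=
      (chartAt (SY.E d) x).isOpen_inter_preimage_symm hK.isOpen_compl
    have hxO : chartAt (SY.E d) x x ∈
        (chartAt (SY.E d) x).target ∩ (chartAt (SY.E d) x).symm ⁻¹' Kᶜ := by
      refine ⟨mem_chart_target (SY.E d) x, ?_⟩
      rw [mem_preimage, (chartAt (SY.E d) x).left_inv (mem_chart_source (SY.E d) x)]
      exact hxK
    have h4 := LS.prim_smooth (d := d) (X := X) hθs hF (φ := (chartAt (SY.E d) x).symm) hO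
      (contMDiffOn_chart_symm.mono inter_subset_left) fun p hp => hp.2
    have h5 : ContinuousAt (F ∘ (chartAt (SY.E d) x).symm) (chartAt (SY.E d) x x) :=
      h4.continuousOn.continuousAt (hO.mem_nhds hxO)
    have h6 : ContinuousAt (fun p => Real.exp (-(F ∘ (chartAt (SY.E d) x).symm) p))
        (chartAt (SY.E d) x x) := h5.neg.rexp
    obtain ⟨δ, hδ⟩ : ∃ δ, δ = Real.exp (-(F ∘ (chartAt (SY.E d) x).symm)
      (chartAt (SY.E d) x x)) / 2 := ⟨_, rfl⟩
    have hδ0 : 0 < δ := by rw [hδ]; positivity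
    have h7 : ∀ᶠ p in 𝓝 (chartAt (SY.E d) x x),
        δ < Real.exp (-(F ∘ (chartAt (SY.E d) x).symm) p) := by
      refine h6.eventually (lt_mem_nhds ?_)
      rw [hδ]
      exact half_lt_self (Real.exp_pos _)
    refine ⟨c * δ, by positivity, ?_⟩
    filter_upwards [h3, h7] with p hp hpδ hpK v
    have h8 := hp hpK v
    rw [hpb]
    change c * δ * ‖v‖ ^ 2 ≤ Real.exp (-(F ∘ (chartAt (SY.E d) x).symm) p) *
        pb (chartAt (ES d) x).symm σ p ![v, inChart J x p v]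
    have h9 : 0 ≤ c * ‖v‖ ^ 2 := by positivity
    calc c * δ * ‖v‖ ^ 2 = δ * (c * ‖v‖ ^ 2) := by ring
      _ ≤ Real.exp (-(F ∘ (chartAt (SY.E d) x).symm) p) * (c * ‖v‖ ^ 2) :=
        mul_le_mul_of_nonneg_right hpδ.le h9
      _ ≤ _ := mul_le_mul_of_nonneg_left h8 (Real.exp_pos _).le
  refine ⟨fun x => Real.exp (-F x), fun x => Real.exp_pos _, hcl, fun U hU hKU => ?_⟩
  obtain ⟨α, η, w, a1, a2, a3, a4, a5⟩ := removableE hd J hJ K hK hH _ hcl hecc hpos'
    (fun z hz => smallAll_mono (connectedComponentIn_mono z hcrit) (hsmall z (hcrit hz))) U hU hKU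
  exact ⟨α, η, w, a1, a2, a3, a4, a5⟩

end

end Pool.Agent.U896.LSP
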