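import Pool.Agent.U896.SE.Proj

/-!
# Primitives of closed one-forms on the complement of a small set
-/

set_option autoImplicit false

open Set Filter Topology MeasureTheory
open scoped Manifold ContDiff

noncomputable section

namespace Pool.Agent.U896.LS

open Pool.Agent.Y501.SY (E)
open Pool.Agent.U896.SE (span_null haus_mono)

section

variable {d : ℕ}

/-- sets which are not met by almost all translates of a line -/
def Neg (S : Set (E d)) : Prop := ∀ w : E d, w ≠ 0 → volume {z : E d | ∃ t : ℝ, z + t • w ∈ S} = 0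

theorem const_convex {C : Set (E d)} (hC : IsOpen C) (hc : Convex ℝ C) {h : E d → ℝ}
    (hd : ∀ x ∈ C, HasFDerivAt h (0 : E d →L[ℝ] ℝ) x) {x y : E d} (hx : x ∈ C) (hy : y ∈ C) :
    h x = h y :=
  hC.is_const_of_fderiv_eq_zero hc.isPreconnected
    (fun z hz => (hd z hz).differentiableAt.differentiableWithinAt)
    (fun z hz => (hd z hz).fderiv) hx hy

theorem thick {O T : Set (E d)} (hO : IsOpen O) (hT : IsCompact T) (hTc : Convex ℝ T)
    (h : T ⊆ O) : ∃ ε : ℝ, 0 < ε ∧ Metric.thickening ε T ⊆ O ∧ IsOpen (Metric.thickening ε T) ∧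
      Convex ℝ (Metric.thickening ε T) := by
  obtain ⟨ε, hε, h1⟩ := hT.exists_thickening_subset_open hO h
  exact ⟨ε, hε, h1, Metric.isOpen_thickening, hTc.thickening ε⟩

theorem trans_null {A : Set (E d)} (hA : volume A = 0) (p : E d) :
    volume {z : E d | p + z ∈ A} = 0 := by
  have h2 : {z : E d | p + z ∈ A} = (fun y : E d => p + y) ⁻¹' A := rfl
  rw [h2, measure_preimage_add, hA]

theorem exists_small {A : Set (E d)} (hA : volume A = 0) {r : ℝ} (hr : 0 < r) :
    ∃ z : E d, ‖z‖ < r ∧ z ∉ A := by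
  by_contra h
  push Not at h
  have h1 : Metric.ball (0 : E d) r ⊆ A := fun z hz => h z (by simpa using hz)
  have h2 : volume (Metric.ball (0 : E d) r) = 0 := measure_mono_null h1 hA
  exact (Metric.measure_ball_pos volume (0 : E d) hr).ne' h2

theorem seg_compact (a b : E d) : IsCompact (segment ℝ a b) := by
  rw [← convexHull_pair (𝕜 := ℝ) a b]
  exact (Set.toFinite _).isCompact_convexHull ℝ

theorem const_of {V S : Set (E d)} (hV : Convex ℝ V) (hVS : IsOpen (V \ S)) (hS : Neg S)
    {h : E d → ℝ} (hd : ∀ x ∈ V \ S, HasFDerivAt h (0 : E d →L[ℝ] ℝ) x) {x y : E d}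
    (hx : x ∈ V \ S) (hy : y ∈ V \ S) : h x = h y := by
  by_cases hxy : x = y
  · rw [hxy]
  have hw : y - x ≠ 0 := sub_ne_zero.2 (Ne.symm hxy)
  obtain ⟨r₁, hr₁, h1⟩ := Metric.isOpen_iff.1 hVS x hx
  obtain ⟨r₂, hr₂, h2⟩ := Metric.isOpen_iff.1 hVS y hy
  obtain ⟨z, hz, hzS⟩ := exists_small (trans_null (hS _ hw) x) (lt_min hr₁ hr₂)
  have hz1 : x + z ∈ Metric.ball x r₁ := by
    rw [Metric.mem_ball, dist_eq_norm, add_sub_cancel_left]
    exact hz.trans_le (min_le_left _ _)
  have hz2 : y + z ∈ Metric.ball y r₂ := by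
    rw [Metric.mem_ball, dist_eq_norm, add_sub_cancel_left]
    exact hz.trans_le (min_le_right _ _)
  have hseg : segment ℝ (x + z) (y + z) ⊆ V \ S := by
    intro p hp
    refine ⟨hV.segment_subset (h1 hz1).1 (h2 hz2).1 hp, fun hpS => hzS ?_⟩
    rw [segment_eq_image'] at hp
    obtain ⟨t, -, rfl⟩ := hp
    refine ⟨t, ?_⟩
    convert hpS using 1
    rw [add_sub_add_right_eq_sub]
  obtain ⟨ε, hε, h3, h4, h5⟩ := thick hVS (seg_compact _ _) (convex_segment _ _) hseg
  have e1 : h x = h (x + z) := const_convex Metric.isOpen_ball (convex_ball x r₁)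
    (fun p hp => hd p (h1 hp)) (Metric.mem_ball_self hr₁) hz1
  have e2 : h y = h (y + z) := const_convex Metric.isOpen_ball (convex_ball y r₂)
    (fun p hp => hd p (h2 hp)) (Metric.mem_ball_self hr₂) hz2
  have e3 : h (x + z) = h (y + z) := const_convex h4 h5 (fun p hp => hd p (h3 hp))
    (Metric.self_subset_thickening hε _ (left_mem_segment ℝ _ _))
    (Metric.self_subset_thickening hε _ (right_mem_segment ℝ _ _))
  rw [e1, e2, e3]

/-- two vectors, not necessarily independent -/
theorem span2 {m : ℕ} (hd : d = m + 2) {k : Set (E d)} (hk : μH[(m : ℝ)] k = 0) (u w : E d) :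
    volume {y : E d | ∃ s t : ℝ, y + s • u + t • w ∈ k} = 0 := by
  have hk1 : μH[((m + 1 : ℕ) : ℝ)] k = 0 := haus_mono (by push_cast; linarith) hk
  have hk2 : μH[((m + 2 : ℕ) : ℝ)] k = 0 := haus_mono (by push_cast; linarith) hk
  have hone : ∀ v : E d, volume {y : E d | ∃ t : ℝ, y + t • v ∈ k} = 0 := by
    intro v
    by_cases hv : v = 0
    · have h1 : LinearIndependent ℝ (fun i : Fin 0 => (0 : E d)) := linearIndependent_empty_type
      refine measure_mono_null ?_ (span_null (j := 0) (by omega) (fun _ : Fin 0 => (0 : E d)) h1 hk2)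
      rintro y ⟨t, ht⟩
      refine ⟨fun _ => 0, ?_⟩
      rw [hv, smul_zero] at ht
      simpa using ht
    · have h2 : LinearIndependent ℝ (fun _ : Fin 1 => v) := by
        rw [linearIndependent_unique_iff]
        exact hv
      refine measure_mono_null ?_ (span_null (j := 1) (by omega) (fun _ : Fin 1 => v) h2 hk1)
      rintro y ⟨b, hb⟩
      exact ⟨fun _ => b, by simpa using hb⟩
  by_cases hli : LinearIndependent ℝ ![u, w]
  · refine measure_mono_null ?_ (span_null (j := 2) hd ![u, w] hli hk)
    rintro y ⟨s, t, h⟩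
    refine ⟨![s, t], ?_⟩
    rw [Fin.sum_univ_two]
    convert h using 1
    simp [add_assoc]
  · rw [LinearIndependent.pair_iff] at hli
    push Not at hli
    obtain ⟨a, b, hab, hne⟩ := hli
    by_cases ha : a = 0
    · have hb : b ≠ 0 := hne ha
      have hw : w = 0 := by
        rw [ha, zero_smul, zero_add] at hab
        exact (smul_eq_zero.1 hab).resolve_left hb
      refine measure_mono_null ?_ (hone u)
      rintro y ⟨s, t, h⟩
      refine ⟨s, ?_⟩
      rw [hw, smul_zero, add_zero] at h
      exact h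
    · have hu : u = (-(b / a)) • w := by
        have h1 : a • u = -(b • w) := eq_neg_of_add_eq_zero_left hab
        have h2 : u = a⁻¹ • (a • u) := by rw [smul_smul, inv_mul_cancel₀ ha, one_smul]
        rw [h2, h1, smul_neg, smul_smul, neg_smul]
        congr 2
        field_simp
      refine measure_mono_null ?_ (hone w)
      rintro y ⟨s, t, h⟩
      refine ⟨s * (-(b / a)) + t, ?_⟩
      rw [hu, smul_smul] at h
      rw [add_smul, ← add_assoc]
      exact h

end

end Pool.Agent.U896.LS
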