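import Pool.Agent.U896.LS.E1

/-!
# Primitives of closed one-forms on the complement of a small set: existence
-/

set_option autoImplicit false

open Set Filter Topology MeasureTheory
open scoped Manifold ContDiff

noncomputable section

namespace Pool.Agent.U896.LS

open Pool.Agent.Y501.SY (E)

section

variable {d : ℕ}

/-- `g` is a primitive of `θ` on the convex open set `C` -/
structure Pr (θ : E d → (E d →L[ℝ] ℝ)) (O C : Set (E d)) (g : E d → ℝ) : Prop where
  op : IsOpen C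
  cv : Convex ℝ C
  sub : C ⊆ O
  der : ∀ x ∈ C, HasFDerivAt g (θ x) x

/-- differences of values of primitives -/
def J (θ : E d → (E d →L[ℝ] ℝ)) (O : Set (E d)) (p q : E d) : ℝ :=
  open scoped Classical in
  if h : ∃ (C : Set (E d)) (g : E d → ℝ), Pr θ O C g ∧ p ∈ C ∧ q ∈ C then
    (Classical.choose (Classical.choose_spec h)) q - (Classical.choose (Classical.choose_spec h)) p
  else 0

theorem pr_sub {θ : E d → (E d →L[ℝ] ℝ)} {O C C' : Set (E d)} {g g' : E d → ℝ}
    (h : Pr θ O C g) (h' : Pr θ O C' g') {p q : E d} (hp : p ∈ C) (hq : q ∈ C) (hp' : p ∈ C')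
    (hq' : q ∈ C') : g q - g p = g' q - g' p := by
  have h1 := const_convex (h.op.inter h'.op) (h.cv.inter h'.cv) (h := fun x => g x - g' x)
    (fun x hx => by
      have h2 := (h.der x hx.1).sub (h'.der x hx.2)
      rw [sub_self] at h2
      exact h2) (x := p) (y := q) ⟨hp, hp'⟩ ⟨hq, hq'⟩
  linarith

theorem J_eq {θ : E d → (E d →L[ℝ] ℝ)} {O C : Set (E d)} {g : E d → ℝ}
    (h : Pr θ O C g) {p q : E d} (hp : p ∈ C) (hq : q ∈ C) : J θ O p q = g q - g p := by
  have hex : ∃ (C : Set (E d)) (g : E d → ℝ), Pr θ O C g ∧ p ∈ C ∧ q ∈ C := ⟨C, g, h, hp, hq⟩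
  unfold J
  rw [dif_pos hex]
  obtain ⟨h1, h2, h3⟩ := Classical.choose_spec (Classical.choose_spec hex)
  exact pr_sub h1 h h2 h3 hp hq

/-- the shadow -/
def Sh (S : Set (E d)) (c x : E d) : Set (E d) :=
  {z | ∃ s ∈ Icc (0 : ℝ) 1, c + z + s • (x - c) ∈ S}

def hh (θ : E d → (E d →L[ℝ] ℝ)) (O : Set (E d)) (c x z : E d) : ℝ :=
  J θ O c (c + z) + J θ O (c + z) (x + z) + J θ O (x + z) x

variable {m : ℕ} {V S : Set (E d)} {θ : E d → (E d →L[ℝ] ℝ)}

theorem sh_null (hd : d = m + 2) (hS : μH[(m : ℝ)] S = 0) (c x : E d) : volume (Sh S c x) = 0 := by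
  refine measure_mono_null ?_ (trans_null (span2 hd hS (x - c) 0) c)
  rintro z ⟨s, -, h⟩
  refine ⟨s, 0, ?_⟩
  rw [smul_zero, add_zero]
  exact h

theorem sh_neg (hd : d = m + 2) (hS : μH[(m : ℝ)] S = 0) (c x : E d) : Neg (Sh S c x) := by
  intro w _
  refine measure_mono_null ?_ (trans_null (span2 hd hS (x - c) w) c)
  rintro z ⟨t, s, -, h⟩
  refine ⟨s, t, ?_⟩
  convert h using 1
  abel

theorem mem_ball_add {x z : E d} {r : ℝ} (hz : ‖z‖ < r) : x + z ∈ Metric.ball x r := by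
  rw [Metric.mem_ball, dist_eq_norm, add_sub_cancel_left]
  exact hz

theorem seg_sub (hV : Convex ℝ V) {c x z : E d} {r : ℝ} (hc : Metric.ball c r ⊆ V \ S)
    (hx : Metric.ball x r ⊆ V \ S) (hz : ‖z‖ < r) (hzS : z ∉ Sh S c x) :
    segment ℝ (c + z) (x + z) ⊆ V \ S := by
  intro p hp
  refine ⟨hV.segment_subset (hc (mem_ball_add hz)).1 (hx (mem_ball_add hz)).1 hp,
    fun hpS => hzS ?_⟩
  rw [segment_eq_image'] at hp
  obtain ⟨t, ht, rfl⟩ := hp
  refine ⟨t, ht, ?_⟩
  convert hpS using 1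
  simp only [add_sub_add_right_eq_sub]

theorem hh_const (hd : d = m + 2) (hS : μH[(m : ℝ)] S = 0) (hV : Convex ℝ V)
    (hVS : IsOpen (V \ S))
    (hloc : ∀ C : Set (E d), IsOpen C → Convex ℝ C → C ⊆ V \ S →
      ∃ g : E d → ℝ, ∀ x ∈ C, HasFDerivAt g (θ x) x)
    {c x : E d} {r : ℝ} (hc : Metric.ball c r ⊆ V \ S) (hx : Metric.ball x r ⊆ V \ S)
    {z z' : E d} (hz : ‖z‖ < r) (hz' : ‖z'‖ < r) (hzS : z ∉ Sh S c x) (hzS' : z' ∉ Sh S c x) :
    hh θ (V \ S) c x z = hh θ (V \ S) c x z' := by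
  have hr : 0 < r := (norm_nonneg z).trans_lt hz
  obtain ⟨gc, hgc⟩ := hloc _ Metric.isOpen_ball (convex_ball c r) hc
  obtain ⟨gx, hgx⟩ := hloc _ Metric.isOpen_ball (convex_ball x r) hx
  have hPc : Pr θ (V \ S) (Metric.ball c r) gc := ⟨Metric.isOpen_ball, convex_ball c r, hc, hgc⟩
  have hPx : Pr θ (V \ S) (Metric.ball x r) gx := ⟨Metric.isOpen_ball, convex_ball x r, hx, hgx⟩
  have hcc : c ∈ Metric.ball c r := Metric.mem_ball_self hr
  have hxx : x ∈ Metric.ball x r := Metric.mem_ball_self hr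
  -- near a point the value is constant
  have key : ∀ z : E d, ‖z‖ < r → z ∉ Sh S c x → ∃ ε : ℝ, 0 < ε ∧ ∀ z' : E d, ‖z' - z‖ < ε →
      ‖z'‖ < r ∧ z' ∉ Sh S c x ∧ hh θ (V \ S) c x z' = hh θ (V \ S) c x z := by
    intro z hz hzS
    have hseg := seg_sub hV hc hx hz hzS
    obtain ⟨ε, hε, h3, h4, h5⟩ := thick hVS (seg_compact _ _) (convex_segment _ _) hseg
    obtain ⟨g, hg⟩ := hloc _ h4 h5 h3
    have hP : Pr θ (V \ S) (Metric.thickening ε (segment ℝ (c + z) (x + z))) g :=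
      ⟨h4, h5, h3, hg⟩
    refine ⟨min ε (r - ‖z‖), lt_min hε (by linarith), fun z' h' => ?_⟩
    have h'1 := h'.trans_le (min_le_left _ _)
    have h'2 := h'.trans_le (min_le_right _ _)
    have hz'r : ‖z'‖ < r := by
      have h6 : z' = z + (z' - z) := by abel
      rw [h6]
      exact (norm_add_le _ _).trans_lt (by linarith)
    have hin : ∀ y ∈ segment ℝ (c + z) (x + z), y + (z' - z) ∈
        Metric.thickening ε (segment ℝ (c + z) (x + z)) := by
      intro y hy
      rw [Metric.mem_thickening_iff]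
      refine ⟨y, hy, ?_⟩
      rw [dist_eq_norm, add_sub_cancel_left]
      exact h'1
    have hcz := hin _ (left_mem_segment ℝ _ _)
    have hxz := hin _ (right_mem_segment ℝ _ _)
    have e1 : c + z + (z' - z) = c + z' := by abel
    have e2 : x + z + (z' - z) = x + z' := by abel
    rw [e1] at hcz
    rw [e2] at hxz
    have hcz0 := Metric.self_subset_thickening hε _ (left_mem_segment ℝ (c + z) (x + z))
    have hxz0 := Metric.self_subset_thickening hε _ (right_mem_segment ℝ (c + z) (x + z))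
    refine ⟨hz'r, ?_, ?_⟩
    · rintro ⟨s, hs, hsS⟩
      have h7 : c + z + s • (x - c) ∈ segment ℝ (c + z) (x + z) := by
        rw [segment_eq_image']
        exact ⟨s, hs, by rw [add_sub_add_right_eq_sub]⟩
      have h8 := h3 (hin _ h7)
      have h9 : c + z + s • (x - c) + (z' - z) = c + z' + s • (x - c) := by abel
      rw [h9] at h8
      exact h8.2 hsS
    · have a1 := J_eq hPc hcc (mem_ball_add hz)
      have a2 := J_eq hPc hcc (mem_ball_add hz'r)
      have a3 := J_eq hPx (mem_ball_add hz) hxx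
      have a4 := J_eq hPx (mem_ball_add hz'r) hxx
      have a5 := J_eq hP hcz0 hxz0
      have a6 := J_eq hP hcz hxz
      have a7 := pr_sub hPc hP (mem_ball_add hz) (mem_ball_add hz'r) hcz0 hcz
      have a8 := pr_sub hPx hP (mem_ball_add hz) (mem_ball_add hz'r) hxz0 hxz
      unfold hh
      rw [a1, a2, a3, a4, a5, a6]
      linarith
  have hop : IsOpen (Metric.ball (0 : E d) r \ Sh S c x) := by
    rw [Metric.isOpen_iff]
    rintro z ⟨hz, hzS⟩
    obtain ⟨ε, hε, h1⟩ := key z (by simpa using hz) hzS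
    refine ⟨ε, hε, fun z' hz' => ?_⟩
    rw [Metric.mem_ball, dist_eq_norm] at hz'
    obtain ⟨b1, b2, -⟩ := h1 z' hz'
    exact ⟨by simpa using b1, b2⟩
  refine const_of (convex_ball (0 : E d) r) hop (sh_neg hd hS c x) ?_
    ⟨by simpa using hz, hzS⟩ ⟨by simpa using hz', hzS'⟩
  rintro y ⟨hy, hyS⟩
  obtain ⟨ε, hε, h1⟩ := key y (by simpa using hy) hyS
  refine (hasFDerivAt_const (hh θ (V \ S) c x y) y).congr_of_eventuallyEq ?_
  filter_upwards [Metric.ball_mem_nhds y hε] with z' hz'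
  rw [Metric.mem_ball, dist_eq_norm] at hz'
  exact (h1 z' hz').2.2

theorem hull_sub (hV : Convex ℝ V) {a u w : E d} (ha : a ∈ V) (hu : a + u ∈ V) (hw : a + w ∈ V)
    (hS : ∀ s t : ℝ, a + s • u + t • w ∉ S) :
    convexHull ℝ {a, a + u, a + w} ⊆ V \ S := by
  have h1 : convexHull ℝ {a, a + u, a + w} ⊆ V ∩ {y | ∃ s t : ℝ, y = a + s • u + t • w} := by
    refine convexHull_min ?_ (hV.inter ?_)
    · intro y hy
      simp only [mem_insert_iff, mem_singleton_iff] at hy
      rcases hy with rfl | rfl | rfl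
      · exact ⟨ha, 0, 0, by simp⟩
      · exact ⟨hu, 1, 0, by simp⟩
      · exact ⟨hw, 0, 1, by simp⟩
    · rintro y ⟨s, t, rfl⟩ y' ⟨s', t', rfl⟩ p q _ _ hpq
      refine ⟨p * s + q * s', p * t + q * t', ?_⟩
      have h2 : q = 1 - p := by linarith
      rw [h2]
      module
  intro y hy
  obtain ⟨h2, s, t, rfl⟩ := h1 hy
  exact ⟨h2, hS s t⟩

/-- closed one-forms on the complement of a set of codimension more than two in a convex set are
exact -/
theorem exact_off (hd : d = m + 2) (hS : μH[(m : ℝ)] S = 0) (hV : Convex ℝ V)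
    (hVS : IsOpen (V \ S))
    (hloc : ∀ C : Set (E d), IsOpen C → Convex ℝ C → C ⊆ V \ S →
      ∃ g : E d → ℝ, ∀ x ∈ C, HasFDerivAt g (θ x) x) :
    ∃ f : E d → ℝ, ∀ x ∈ V \ S, HasFDerivAt f (θ x) x := by
  by_cases hne : (V \ S).Nonempty
  swap
  · rw [Set.not_nonempty_iff_eq_empty] at hne
    rw [hne]
    exact ⟨0, fun x hx => absurd hx (notMem_empty x)⟩
  obtain ⟨c, hcV⟩ := hne
  have hex : ∀ x ∈ V \ S, ∃ a : ℝ, ∀ r : ℝ, Metric.ball c r ⊆ V \ S → Metric.ball x r ⊆ V \ S →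
      ∀ z : E d, ‖z‖ < r → z ∉ Sh S c x → hh θ (V \ S) c x z = a := by
    intro x hx
    obtain ⟨r₁, hr₁, h1⟩ := Metric.isOpen_iff.1 hVS c hcV
    obtain ⟨r₂, hr₂, h2⟩ := Metric.isOpen_iff.1 hVS x hx
    obtain ⟨z₀, hz₀, hz₀S⟩ := exists_small (sh_null hd hS c x) (lt_min hr₁ hr₂)
    refine ⟨hh θ (V \ S) c x z₀, fun r hcr hxr z hz hzS => ?_⟩
    have hr : 0 < r := (norm_nonneg z).trans_lt hz
    -- compare through a smaller vector
    obtain ⟨z₁, hz₁, hz₁S⟩ := exists_small (sh_null hd hS c x) (lt_min hr (lt_min hr₁ hr₂))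
    have e1 := hh_const hd hS hV hVS hloc hcr hxr hz (hz₁.trans_le (min_le_left _ _)) hzS hz₁S
    have e2 := hh_const hd hS hV hVS hloc (r := min r₁ r₂) (x := x) (c := c)
      ((Metric.ball_subset_ball (min_le_left _ _)).trans h1)
      ((Metric.ball_subset_ball (min_le_right _ _)).trans h2)
      hz₀ (hz₁.trans_le (min_le_right _ _)) hz₀S hz₁S
    rw [e1, e2]
  classical
  choose! f hf using hex
  refine ⟨f, fun x hx => ?_⟩
  obtain ⟨r₁, hr₁, h1⟩ := Metric.isOpen_iff.1 hVS c hcV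
  obtain ⟨r₂, hr₂, h2⟩ := Metric.isOpen_iff.1 hVS x hx
  obtain ⟨gx, hgx⟩ := hloc _ Metric.isOpen_ball (convex_ball x r₂) h2
  have hPx : Pr θ (V \ S) (Metric.ball x r₂) gx := ⟨Metric.isOpen_ball, convex_ball x r₂, h2, hgx⟩
  have hxx : x ∈ Metric.ball x r₂ := Metric.mem_ball_self hr₂
  refine ((hgx x hxx).add_const (f x - gx x)).congr_of_eventuallyEq ?_
  filter_upwards [Metric.ball_mem_nhds x (half_pos hr₂)] with x' hx'
  rw [Metric.mem_ball, dist_eq_norm] at hx'
  have hx'r : x' ∈ Metric.ball x r₂ := by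
    rw [Metric.mem_ball, dist_eq_norm]
    linarith
  have hx'V : x' ∈ V \ S := h2 hx'r
  have hball' : Metric.ball x' (r₂ / 2) ⊆ Metric.ball x r₂ := by
    intro y hy
    rw [Metric.mem_ball, dist_eq_norm] at hy ⊢
    have h3 : y - x = (y - x') + (x' - x) := by abel
    rw [h3]
    exact (norm_add_le _ _).trans_lt (by linarith)
  -- a generic vector
  obtain ⟨z, hz, hzS⟩ := exists_small (A := Sh S c x ∪ Sh S c x' ∪
      {z : E d | c + z ∈ {y : E d | ∃ s t : ℝ, y + s • (x - c) + t • (x' - c) ∈ S}})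
    (measure_union_null (measure_union_null (sh_null hd hS c x) (sh_null hd hS c x'))
      (trans_null (span2 hd hS (x - c) (x' - c)) c)) (lt_min hr₁ (half_pos hr₂))
  have hz1 : ‖z‖ < r₁ := hz.trans_le (min_le_left _ _)
  have hz2 : ‖z‖ < r₂ / 2 := hz.trans_le (min_le_right _ _)
  have hzS1 : z ∉ Sh S c x := fun h => hzS (Or.inl (Or.inl h))
  have hzS2 : z ∉ Sh S c x' := fun h => hzS (Or.inl (Or.inr h))
  have hzS3 : ∀ s t : ℝ, c + z + s • (x - c) + t • (x' - c) ∉ S := fun s t h =>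
    hzS (Or.inr ⟨s, t, h⟩)
  have f1 : hh θ (V \ S) c x z = f x := by
    refine hf x hx (min r₁ (r₂ / 2)) ((Metric.ball_subset_ball (min_le_left _ _)).trans h1)
      ((Metric.ball_subset_ball ((min_le_right _ _).trans (by linarith))).trans h2) z hz hzS1
  have f2 : hh θ (V \ S) c x' z = f x' := by
    refine hf x' hx'V (min r₁ (r₂ / 2)) ((Metric.ball_subset_ball (min_le_left _ _)).trans h1)
      (((Metric.ball_subset_ball (min_le_right _ _)).trans hball').trans h2) z hz hzS2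
  have hT : convexHull ℝ {c + z, x + z, x' + z} ⊆ V \ S := by
    have e1 : x + z = (c + z) + (x - c) := by abel
    have e2 : x' + z = (c + z) + (x' - c) := by abel
    have hxz : x + z ∈ Metric.ball x r₂ := mem_ball_add (by linarith)
    have hx'z : x' + z ∈ Metric.ball x r₂ := hball' (mem_ball_add hz2)
    rw [e1, e2]
    refine hull_sub hV (h1 (mem_ball_add hz1)).1 ?_ ?_ hzS3
    · rw [← e1]
      exact (h2 hxz).1
    · rw [← e2]
      exact (h2 hx'z).1
  have hTc : IsCompact (convexHull ℝ {c + z, x + z, x' + z}) :=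
    (Set.toFinite _).isCompact_convexHull ℝ
  obtain ⟨ε, hε, h3, h4, h5⟩ := thick hVS hTc (convex_convexHull ℝ _) hT
  obtain ⟨g, hg⟩ := hloc _ h4 h5 h3
  have hP : Pr θ (V \ S) (Metric.thickening ε (convexHull ℝ {c + z, x + z, x' + z})) g :=
    ⟨h4, h5, h3, hg⟩
  have hmem : ∀ y ∈ ({c + z, x + z, x' + z} : Set (E d)),
      y ∈ Metric.thickening ε (convexHull ℝ {c + z, x + z, x' + z}) := fun y hy =>
    Metric.self_subset_thickening hε _ (subset_convexHull ℝ _ hy)
  have m1 := hmem (c + z) (by simp)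
  have m2 := hmem (x + z) (by simp)
  have m3 := hmem (x' + z) (by simp)
  have b1 := J_eq hP m1 m2
  have b2 := J_eq hP m1 m3
  have hxz : x + z ∈ Metric.ball x r₂ := mem_ball_add (by linarith)
  have hx'z : x' + z ∈ Metric.ball x r₂ := hball' (mem_ball_add hz2)
  have b3 := J_eq hPx hxz hxx
  have b4 := J_eq hPx hx'z hx'r
  have b5 := pr_sub hPx hP hxz hx'z m2 m3
  unfold hh at f1 f2
  rw [← f2, ← f1, b1, b2, b3, b4]
  linarith

end

end Pool.Agent.U896.LS
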