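import Pool.Agent.U896.LS.E2
import Pool.Agent.U896.SC.P5
import Pool.Agent.Q186.FL.Triv

/-!
# Primitives of closed one-forms on the complement of a small set: manifolds
-/

set_option autoImplicit false

open Set Filter Topology MeasureTheory
open scoped Manifold ContDiff

noncomputable section

namespace Pool.Agent.U896.LS

open Pool.Agent.Y501.SY
open Pool.Agent.U896.SC (pb_ev1 pb_comp1)

section

variable {d : ℕ}

/-- a one-form as a linear functional -/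
def un (a : (E d) [⋀^Fin 1]→L[ℝ] ℝ) : E d →L[ℝ] ℝ :=
  (ContinuousAlternatingMap.ofSubsingletonLIE (𝕜 := ℝ) (E := E d) (F := ℝ) (0 : Fin 1)).symm a

theorem un_apply (a : (E d) [⋀^Fin 1]→L[ℝ] ℝ) (v : E d) : un a v = a ![v] := by
  obtain ⟨b, rfl⟩ := (ContinuousAlternatingMap.ofSubsingletonLIE (𝕜 := ℝ) (E := E d) (F := ℝ)
    (0 : Fin 1)).surjective a
  unfold un
  rw [LinearIsometryEquiv.symm_apply_apply]
  rfl

theorem un_smooth {W : Type} [NormedAddCommGroup W] [NormedSpace ℝ W] {U : Set W}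
    {t : W → (E d) [⋀^Fin 1]→L[ℝ] ℝ} (ht : ContDiffOn ℝ ∞ t U) :
    ContDiffOn ℝ ∞ (fun p => un (t p)) U :=
  (ContinuousAlternatingMap.ofSubsingletonLIE (𝕜 := ℝ) (E := E d) (F := ℝ)
    (0 : Fin 1)).symm.contDiff.comp_contDiffOn ht

theorem loc_closed {O : Set (E d)} (hO : IsOpen O) {t : E d → (E d) [⋀^Fin 1]→L[ℝ] ℝ}
    (ht : ContDiffOn ℝ ∞ t O) (htc : ∀ p ∈ O, extDeriv t p = 0) {C : Set (E d)} (hC : IsOpen C)
    (hc : Convex ℝ C) (hCO : C ⊆ O) :
    ∃ g : E d → ℝ, ∀ x ∈ C, HasFDerivAt g (un (t x)) x := by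
  have h0 : DifferentiableOn ℝ (fun p => un (t p)) C :=
    ((un_smooth ht).mono hCO).differentiableOn (by simp)
  refine hc.exists_forall_hasFDerivAt_of_fderiv_symmetric hC h0 fun a ha x y => ?_
  have h1 : DifferentiableAt ℝ t a :=
    (ht.contDiffAt (hO.mem_nhds (hCO ha))).differentiableAt (by simp)
  have h2 : HasFDerivAt (fun p => un (t p)) (fderiv ℝ (fun p => un (t p)) a) a :=
    (h0.differentiableAt (hC.mem_nhds ha)).hasFDerivAt
  have h3 : ∀ x y : E d, fderiv ℝ (fun p => un (t p)) a x y = fderiv ℝ (fun p => t p ![y]) a x := by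
    intro x y
    have h5 := h2.clm_apply (hasFDerivAt_const y a)
    have h6 : (fun p => un (t p) y) = fun p => t p ![y] := funext fun p => un_apply _ _
    rw [h6] at h5
    rw [h5.fderiv]
    simp
  rw [h3, h3]
  have h4 := extDeriv_apply h1 ![x, y]
  rw [htc a (hCO ha)] at h4
  rw [Fin.sum_univ_two] at h4
  have e1 : (0 : Fin 2).removeNth ![x, y] = ![y] := by
    ext i
    fin_cases i
    rfl
  have e2 : (1 : Fin 2).removeNth ![x, y] = ![x] := by
    ext i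
    fin_cases i
    rfl
  rw [e1, e2] at h4
  simp only [Fin.val_zero, pow_zero, one_smul, Fin.val_one, pow_one, neg_smul,
    Matrix.cons_val_zero, Matrix.cons_val_one] at h4
  have h40 : (0 : (E d) [⋀^Fin 2]→L[ℝ] ℝ) ![x, y] = 0 := rfl
  rw [h40] at h4
  linarith

end

section

variable {d : ℕ} {X : Type} [TopologicalSpace X] [ChartedSpace (E d) X]

/-- `f` is a primitive of `θ` on `O`, off `K` -/
def PrimOn (θ : Form d X 1) (f : X → ℝ) (O K : Set X) : Prop :=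
  ∀ (U : Set (E d)) (φ : E d → X), IsOpen U → ContMDiffOn (𝓡 d) (𝓡 d) ∞ φ U →
    (∀ p ∈ U, φ p ∉ K ∧ φ p ∈ O) → ∀ p ∈ U, HasFDerivAt (f ∘ φ) (un (pb φ θ p)) p

/-- the codimension of `K` is more than two -/
def Cod2 (K : Set X) : Prop :=
  ∃ m : ℕ, d = m + 2 ∧ ∀ x : X, μH[(m : ℝ)] (chartAt (E d) x '' (K ∩ (chartAt (E d) x).source)) = 0

theorem pre_null {K : Set X} (x : X) {m : ℕ}
    (h : μH[(m : ℝ)] (chartAt (E d) x '' (K ∩ (chartAt (E d) x).source)) = 0) {B : Set (E d)}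
    (hB : B ⊆ (chartAt (E d) x).target) :
    μH[(m : ℝ)] (B ∩ (chartAt (E d) x).symm ⁻¹' K) = 0 := by
  refine measure_mono_null ?_ h
  rintro p ⟨hp, hpK⟩
  exact ⟨(chartAt (E d) x).symm p, ⟨hpK, (chartAt (E d) x).map_target (hB hp)⟩,
    (chartAt (E d) x).right_inv (hB hp)⟩

theorem neg_of {m : ℕ} (hd : d = m + 2) {S : Set (E d)} (hS : μH[(m : ℝ)] S = 0) : Neg S := by
  intro w _
  refine measure_mono_null ?_ (span2 hd hS w 0)
  rintro z ⟨t, h⟩
  exact ⟨t, 0, by rwa [smul_zero, add_zero]⟩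

theorem vol_of {m : ℕ} (hd : d = m + 2) {S : Set (E d)} (hS : μH[(m : ℝ)] S = 0) :
    volume S = 0 := by
  refine measure_mono_null ?_ (span2 hd hS 0 0)
  intro z h
  exact ⟨0, 0, by simpa using h⟩

theorem open_off {K : Set X} (hK : IsClosed K) (x : X) {B : Set (E d)} (hBo : IsOpen B)
    (hB : B ⊆ (chartAt (E d) x).target) :
    IsOpen (B \ (B ∩ (chartAt (E d) x).symm ⁻¹' K)) := by
  have h1 : IsOpen ((chartAt (E d) x).target ∩ (chartAt (E d) x).symm ⁻¹' Kᶜ) :=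
    (chartAt (E d) x).isOpen_inter_preimage_symm hK.isOpen_compl
  have h2 : B \ (B ∩ (chartAt (E d) x).symm ⁻¹' K) =
      B ∩ ((chartAt (E d) x).target ∩ (chartAt (E d) x).symm ⁻¹' Kᶜ) := by
    ext p
    constructor
    · rintro ⟨h3, h4⟩
      exact ⟨h3, hB h3, fun h => h4 ⟨h3, h⟩⟩
    · rintro ⟨h3, -, h4⟩
      exact ⟨h3, fun h => h4 h.2⟩
  rw [h2]
  exact hBo.inter h1

theorem freq_off {K : Set X} (hc : Cod2 (d := d) K) (x : X) :
    ∃ᶠ y in 𝓝 x, y ∉ K := by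
  obtain ⟨m, hd, hH⟩ := hc
  intro h
  have h0 : ∀ᶠ y in 𝓝 x, y ∈ K := h.mono fun y hy => not_not.1 hy
  have h1 : ContinuousAt (chartAt (E d) x).symm (chartAt (E d) x x) :=
    (chartAt (E d) x).continuousAt_symm (mem_chart_target (E d) x)
  have h2 : ∀ᶠ p in 𝓝 (chartAt (E d) x x), (chartAt (E d) x).symm p ∈ K ∧
      p ∈ (chartAt (E d) x).target := by
    refine (h1.eventually ?_).and ((chartAt (E d) x).open_target.mem_nhds
      (mem_chart_target (E d) x))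
    rw [(chartAt (E d) x).left_inv (mem_chart_source (E d) x)]
    exact h0
  obtain ⟨r, hr, h3⟩ := Metric.eventually_nhds_iff_ball.1 h2
  have h4 := pre_null x (hH x) (B := Metric.ball (chartAt (E d) x x) r) fun p hp => (h3 p hp).2
  have h6 : Metric.ball (chartAt (E d) x x) r ⊆
      Metric.ball (chartAt (E d) x x) r ∩ (chartAt (E d) x).symm ⁻¹' K :=
    fun p hp => ⟨hp, (h3 p hp).1⟩
  have h5 : volume (Metric.ball (chartAt (E d) x x) r) = 0 :=
    measure_mono_null h6 (vol_of hd h4)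
  exact (Metric.measure_ball_pos volume (chartAt (E d) x x) hr).ne' h5

theorem const_near {K : Set X} (hK : IsClosed K) (hc : Cod2 (d := d) K) {O : Set X}
    (hO : IsOpen O) {x : X} (hx : x ∈ O) [IsManifold (𝓡 d) ∞ X] {h : X → ℝ}
    (hh : ∀ (U : Set (E d)) (φ : E d → X), IsOpen U → ContMDiffOn (𝓡 d) (𝓡 d) ∞ φ U →
      (∀ p ∈ U, φ p ∉ K ∧ φ p ∈ O) → ∀ p ∈ U, HasFDerivAt (h ∘ φ) (0 : E d →L[ℝ] ℝ) p) :
    ∃ b : ℝ, ∀ᶠ y in 𝓝 x, y ∉ K → h y = b := by
  obtain ⟨m, hd, hH⟩ := hc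
  obtain ⟨e, he⟩ : ∃ e, e = chartAt (E d) x := ⟨_, rfl⟩
  have hxs : x ∈ e.source := by rw [he]; exact mem_chart_source (E d) x
  have hxt : e x ∈ e.target := e.map_source hxs
  have h1 : ContinuousAt e.symm (e x) := e.continuousAt_symm hxt
  have h2 : ∀ᶠ p in 𝓝 (e x), e.symm p ∈ O ∧ p ∈ e.target := by
    refine (h1.eventually ?_).and (e.open_target.mem_nhds hxt)
    rw [e.left_inv hxs]
    exact hO.mem_nhds hx
  obtain ⟨r, hr, h3⟩ := Metric.eventually_nhds_iff_ball.1 h2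
  obtain ⟨S, hS⟩ : ∃ S, S = Metric.ball (e x) r ∩ e.symm ⁻¹' K := ⟨_, rfl⟩
  have hBt : Metric.ball (e x) r ⊆ e.target := fun p hp => (h3 p hp).2
  have hS0 : μH[(m : ℝ)] S = 0 := by
    rw [hS, he]
    exact pre_null x (hH x) (by rw [← he]; exact hBt)
  have hSo : IsOpen (Metric.ball (e x) r \ S) := by
    rw [hS, he]
    exact open_off hK x Metric.isOpen_ball (by rw [← he]; exact hBt)
  have hsm : ContMDiffOn (𝓡 d) (𝓡 d) ∞ e.symm (Metric.ball (e x) r \ S) := by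
    rw [he]
    exact contMDiffOn_chart_symm.mono (sdiff_subset.trans (by rw [← he]; exact hBt))
  have hder := hh _ e.symm hSo hsm fun p hp =>
    ⟨fun h => hp.2 (by rw [hS]; exact ⟨hp.1, h⟩), (h3 p hp.1).1⟩
  have hne : (Metric.ball (e x) r \ S).Nonempty := by
    by_contra h
    rw [Set.not_nonempty_iff_eq_empty, sdiff_eq_empty] at h
    exact (Metric.measure_ball_pos volume (e x) hr).ne' (measure_mono_null h (vol_of hd hS0))
  obtain ⟨y₀, hy₀⟩ := hne
  refine ⟨h (e.symm y₀), ?_⟩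
  have h5a : ∀ᶠ y in 𝓝 x, y ∈ e.source := e.open_source.mem_nhds hxs
  have h5 : ∀ᶠ y in 𝓝 x, y ∈ e.source ∧ e y ∈ Metric.ball (e x) r :=
    h5a.and ((e.continuousAt hxs).eventually (Metric.ball_mem_nhds _ hr))
  filter_upwards [h5] with y hy hyK
  have h6 := const_of (h := h ∘ e.symm) (convex_ball (e x) r) hSo (neg_of hd hS0) hder
    (x := e y) (y := y₀) ⟨hy.2, fun h => by
      rw [hS] at h
      have h7 : e.symm (e y) ∈ K := h.2
      rw [e.left_inv hy.1] at h7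
      exact hyK h7⟩ hy₀
  change h (e.symm (e y)) = h (e.symm y₀) at h6
  rwa [e.left_inv hy.1] at h6

theorem loc_prim {K : Set X} (hK : IsClosed K) (hc : Cod2 (d := d) K) [IsManifold (𝓡 d) ∞ X]
    {θ : Form d X 1} (hθ : SmoothOff θ K) (hθc : IsDOff θ 0 K) (x : X) :
    ∃ (O : Set X) (f : X → ℝ), IsOpen O ∧ x ∈ O ∧ PrimOn θ f O K := by
  obtain ⟨m, hd, hH⟩ := hc
  obtain ⟨e, he⟩ : ∃ e, e = chartAt (E d) x := ⟨_, rfl⟩
  have hxs : x ∈ e.source := by rw [he]; exact mem_chart_source (E d) x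
  have hxt : e x ∈ e.target := e.map_source hxs
  obtain ⟨r, hr, hBt⟩ := Metric.isOpen_iff.1 e.open_target _ hxt
  obtain ⟨S, hS⟩ : ∃ S, S = Metric.ball (e x) r ∩ e.symm ⁻¹' K := ⟨_, rfl⟩
  have hS0 : μH[(m : ℝ)] S = 0 := by
    rw [hS, he]
    exact pre_null x (hH x) (by rw [← he]; exact hBt)
  have hSo : IsOpen (Metric.ball (e x) r \ S) := by
    rw [hS, he]
    exact open_off hK x Metric.isOpen_ball (by rw [← he]; exact hBt)
  have hst : ContMDiffOn (𝓡 d) (𝓡 d) ∞ e.symm e.target := by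
    rw [he]
    exact contMDiffOn_chart_symm
  have hsm : ContMDiffOn (𝓡 d) (𝓡 d) ∞ e.symm (Metric.ball (e x) r \ S) :=
    hst.mono (sdiff_subset.trans hBt)
  have hse : ContMDiffOn (𝓡 d) (𝓡 d) ∞ e e.source := by
    rw [he]
    exact contMDiffOn_chart
  have hoff : ∀ p ∈ Metric.ball (e x) r \ S, e.symm p ∉ K := fun p hp h =>
    hp.2 (by rw [hS]; exact ⟨hp.1, h⟩)
  have ht := hθ _ e.symm hSo hsm hoff
  have htc : ∀ p ∈ Metric.ball (e x) r \ S, extDeriv (pb e.symm θ) p = 0 := by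
    intro p hp
    rw [hθc _ e.symm hSo hsm hoff p hp, pb_zero]
    rfl
  obtain ⟨f, hf⟩ := exact_off (θ := fun p => un (pb e.symm θ p)) hd hS0 (convex_ball (e x) r) hSo
    fun C hC hCc hCO => loc_closed hSo ht htc hC hCc hCO
  refine ⟨e.source ∩ e ⁻¹' Metric.ball (e x) r, f ∘ e,
    e.isOpen_inter_preimage Metric.isOpen_ball, ⟨hxs, Metric.mem_ball_self hr⟩, ?_⟩
  intro U φ hU hφ hUK p hp
  have hps := (hUK p hp).2.1
  have hpb := (hUK p hp).2.2
  have hψ : ContDiffOn ℝ ∞ (fun q => e (φ q)) U := by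
    rw [← contMDiffOn_iff_contDiffOn]
    exact hse.comp hφ fun q hq => (hUK q hq).2.1
  have hψd : DifferentiableAt ℝ (fun q => e (φ q)) p :=
    (hψ.contDiffAt (hU.mem_nhds hp)).differentiableAt (by simp)
  have h1 : HasFDerivAt f (un (pb e.symm θ (e (φ p)))) (e (φ p)) := by
    refine hf _ ⟨hpb, fun h => ?_⟩
    rw [hS] at h
    have h2 : e.symm (e (φ p)) ∈ K := h.2
    rw [e.left_inv hps] at h2
    exact (hUK p hp).1 h2
  have h2 := h1.comp p hψd.hasFDerivAt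
  have h3 : pb φ θ p = (pb e.symm θ (e (φ p))).compContinuousLinearMap
      (fderiv ℝ (fun q => e (φ q)) p) := by
    have h4 : φ =ᶠ[𝓝 p] e.symm ∘ (fun q => e (φ q)) := by
      filter_upwards [hU.mem_nhds hp] with q hq
      exact (e.left_inv (hUK q hq).2.1).symm
    rw [pb_ev1 θ h4]
    refine pb_comp1 θ ?_ hψd
    exact (hst.contMDiffAt (e.open_target.mem_nhds (e.map_source hps))).mdifferentiableAt
      (by simp)
  have h5 : un (pb φ θ p) = (un (pb e.symm θ (e (φ p)))).comp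
      (fderiv ℝ (fun q => e (φ q)) p) := by
    ext v
    rw [h3, ContinuousLinearMap.comp_apply, un_apply, un_apply]
    exact congrArg (pb e.symm θ (e (φ p))) (by ext i; fin_cases i; rfl)
  rw [h5]
  exact h2

/-- closed one-forms on the complement of a closed set of codimension more than two in a simply
connected manifold are exact -/
theorem glob_prim {K : Set X} (hK : IsClosed K) (hc : Cod2 (d := d) K) [IsManifold (𝓡 d) ∞ X]
    [SimplyConnectedSpace X] [LocallyPathConnectedSpace X]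
    {θ : Form d X 1} (hθ : SmoothOff θ K) (hθc : IsDOff θ 0 K) :
    ∃ F : X → ℝ, PrimOn θ F univ K := by
  classical
  choose O f hO hxO hf using loc_prim hK hc hθ hθc
  have hex : ∀ i j : X, ∀ x ∈ O i ∩ O j, ∃ b : ℝ, ∀ᶠ y in 𝓝 x, y ∉ K → f j y - f i y = b := by
    intro i j x hx
    refine const_near hK hc ((hO i).inter (hO j)) hx (h := fun y => f j y - f i y) ?_
    intro U φ hU hφ hUK p hp
    have h1 := hf i U φ hU hφ (fun q hq => ⟨(hUK q hq).1, (hUK q hq).2.1⟩) p hp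
    have h2 := hf j U φ hU hφ (fun q hq => ⟨(hUK q hq).1, (hUK q hq).2.2⟩) p hp
    have h3 := h2.sub h1
    rw [sub_self] at h3
    exact h3
  obtain ⟨b, hb⟩ : ∃ b : X → X → X → ℝ, ∀ i j : X, ∀ x ∈ O i ∩ O j,
      ∀ᶠ y in 𝓝 x, y ∉ K → f j y - f i y = b i j x := by
    refine ⟨fun i j x => if h : x ∈ O i ∩ O j then Classical.choose (hex i j x h) else 0, ?_⟩
    intro i j x hx
    beta_reduce
    rw [dif_pos hx]
    exact Classical.choose_spec (hex i j x hx)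
  have huniq : ∀ (x : X) (h : X → ℝ) (a a' : ℝ), (∀ᶠ y in 𝓝 x, y ∉ K → h y = a) →
      (∀ᶠ y in 𝓝 x, y ∉ K → h y = a') → a = a' := by
    intro x h a a' h1 h2
    obtain ⟨y, hyK, h3, h4⟩ := ((freq_off hc x).and_eventually (h1.and h2)).exists
    rw [← h3 hyK, ← h4 hyK]
  have hbc : ∀ i j : X, ∀ x ∈ O i ∩ O j, ∀ᶠ y in 𝓝 x, b i j y = b i j x := by
    intro i j x hx
    filter_upwards [(hb i j x hx).eventually_nhds, ((hO i).inter (hO j)).mem_nhds hx] with y h1 h2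
    exact huniq y (fun y => f j y - f i y) _ _ (hb i j y h2) h1
  have hco : ∀ i j k : X, ∀ x ∈ O i ∩ O j ∩ O k, b i j x + b j k x = b i k x := by
    intro i j k x hx
    refine huniq x (fun y => f k y - f i y) _ _ ?_ (hb i k x ⟨hx.1.1, hx.2⟩)
    filter_upwards [hb i j x hx.1, hb j k x ⟨hx.1.2, hx.2⟩] with y h1 h2 hy
    rw [← h1 hy, ← h2 hy]
    ring
  obtain ⟨g, hg1, hg2⟩ := Pool.Agent.Q186.FL.triv O hO (fun x => ⟨x, hxO x⟩) b hbc hco
  have hF : ∀ i y, y ∈ O i → y ∉ K → f y y - g y y = f i y - g i y := by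
    intro i y hy hyK
    have h1 := hg2 i y y ⟨hy, hxO y⟩
    have h2 := (hb i y y ⟨hy, hxO y⟩).self_of_nhds hyK
    rw [h1, ← h2]
    ring
  refine ⟨fun x => f x x - g x x, ?_⟩
  intro U φ hU hφ hUK p hp
  obtain ⟨i, hi⟩ : ∃ i, i = φ p := ⟨_, rfl⟩
  have hpi : φ p ∈ O i := by rw [hi]; exact hxO _
  have hcont : ContinuousOn φ U := hφ.continuousOn
  have hU' : IsOpen (U ∩ φ ⁻¹' O i) := hcont.isOpen_inter_preimage hU (hO i)
  have h1 := hf i _ φ hU' (hφ.mono inter_subset_left)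
    (fun q hq => ⟨(hUK q hq.1).1, hq.2⟩) p ⟨hp, hpi⟩
  refine (h1.sub_const (g i (φ p))).congr_of_eventuallyEq ?_
  have h2 : ∀ᶠ q in 𝓝 p, g i (φ q) = g i (φ p) :=
    (hcont.continuousAt (hU.mem_nhds hp)).eventually (hg1 i (φ p) hpi)
  filter_upwards [h2, hU'.mem_nhds ⟨hp, hpi⟩] with q h3 h4
  change f (φ q) (φ q) - g (φ q) (φ q) = f i (φ q) - g i (φ p)
  rw [hF i (φ q) h4.2 (hUK q h4.1).1, h3]

end

end Pool.Agent.U896.LS
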