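import Pool.Agent.Y501.SY.PubT

/-!
Two-forms which are closed up to a positive factor: the definitions used in the statement.
-/

set_option autoImplicit false

open Set Filter Topology MeasureTheory
open scoped Manifold ContDiff

noncomputable section

namespace Pool.Agent.U896.LSP

open Pool.Agent.Y501.SYP

variable {V : Type} [NormedAddCommGroup V] [NormedSpace ℝ V]
  {X : Type} [TopologicalSpace X] [ChartedSpace V X]

/-- the value of `a ∧ b` on `u`, `v`, `w` -/
def wedgeVal (a : V [⋀^Fin 1]→L[ℝ] ℝ) (b : V [⋀^Fin 2]→L[ℝ] ℝ) (u v w : V) : ℝ :=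
  a ![u] * b ![v, w] - a ![v] * b ![u, w] + a ![w] * b ![u, v]

/-- the form `f σ` -/
def scale (f : X → ℝ) (σ : Form V X 2) : Form V X 2 := fun x => f x • σ x

/-- On the complement of `K`, the forms `σ` and `θ` are smooth, `dθ = 0` and `dσ = θ ∧ σ`: the form
`σ` is locally conformally closed, with Lee form `θ`. -/
def ConfClosedOff (σ : Form V X 2) (θ : Form V X 1) (K : Set X) : Prop :=
  ∀ (U : Set V) (φ : V → X), SmoothParam U φ → (∀ p ∈ U, φ p ∉ K) →
    ContDiffOn ℝ ∞ (pb φ σ) U ∧ ContDiffOn ℝ ∞ (pb φ θ) U ∧ ∀ p ∈ U,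
      extDeriv (pb φ θ) p = 0 ∧ ∀ u v w : V,
        extDeriv (pb φ σ) p ![u, v, w] = wedgeVal (pb φ θ p) (pb φ σ p) u v w

/-- `σ` has bounded eccentricity with respect to `J` on the complement of `K` near `x`: in the
chart at `x`, for some `c > 0`, `σ(v, Jv) ≥ c |σ| |v|²` for all `v`, at all points near `x` which
are not in `K`. -/
def BoundedEccNear (σ : Form V X 2) (J : End V X) (K : Set X) (x : X) : Prop :=
  ∃ c : ℝ, 0 < c ∧ ∀ᶠ p in 𝓝 (chartAt V x x), (chartAt V x).symm p ∉ K →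
    ∀ v : V, c * ‖pb (chartAt V x).symm σ p‖ * ‖v‖ ^ 2 ≤
      pb (chartAt V x).symm σ p ![v, inChart J x p v]

end Pool.Agent.U896.LSP
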