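import Pool.Agent.U896.LS.G1
import Pool.Agent.U896.LS.PubLS
import Pool.Agent.U896.SE.FinalE

/-!
# Two-forms which are closed up to a positive factor
-/

set_option autoImplicit false

open Set Filter Topology MeasureTheory
open scoped Manifold ContDiff

noncomputable section

namespace Pool.Agent.U896.LS

open Pool.Agent.Y501.SY

section

variable {d : ℕ}

theorem ext_smul3 {g : E d → ℝ} {s : E d → (E d) [⋀^Fin 2]→L[ℝ] ℝ} {p : E d}
    (hg : DifferentiableAt ℝ g p) (hs : DifferentiableAt ℝ s p) (u v w : E d) :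
    extDeriv (fun q => g q • s q) p ![u, v, w] = g p * extDeriv s p ![u, v, w] +
      (fderiv ℝ g p u * s p ![v, w] - fderiv ℝ g p v * s p ![u, w] +
        fderiv ℝ g p w * s p ![u, v]) := by
  have h1 : DifferentiableAt ℝ (fun q => g q • s q) p := hg.smul hs
  have hap : ∀ a : Fin 2 → E d, DifferentiableAt ℝ (fun q => s q a) p := fun a =>
    ((ContinuousAlternatingMap.apply ℝ (E d) ℝ a).differentiableAt).comp p hs
  have h2 : ∀ (a : Fin 2 → E d) (b : E d), fderiv ℝ (fun q => (g q • s q) a) p b =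
      g p * fderiv ℝ (fun q => s q a) p b + fderiv ℝ g p b * s p a := by
    intro a b
    have h3 := (hg.hasFDerivAt.mul (hap a).hasFDerivAt).fderiv
    have h4 : (fun q => (g q • s q) a) = fun q => g q * s q a := rfl
    rw [h4]
    change fderiv ℝ (g * fun q => s q a) p b = _
    rw [h3]
    simp
    ring
  rw [extDeriv_apply h1, extDeriv_apply hs, Fin.sum_univ_three, Fin.sum_univ_three]
  have e0 : (0 : Fin 3).removeNth ![u, v, w] = ![v, w] := by
    ext i; fin_cases i <;> rfl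
  have e1 : (1 : Fin 3).removeNth ![u, v, w] = ![u, w] := by
    ext i; fin_cases i <;> rfl
  have e2 : (2 : Fin 3).removeNth ![u, v, w] = ![u, v] := by
    ext i; fin_cases i <;> rfl
  rw [e0, e1, e2, h2, h2, h2]
  simp
  ring

theorem zero_of3 {a : (E d) [⋀^Fin 3]→L[ℝ] ℝ} (h : ∀ u v w : E d, a ![u, v, w] = 0) : a = 0 := by
  ext x
  have hx : x = ![x 0, x 1, x 2] := by
    ext i; fin_cases i <;> rfl
  rw [hx, h]
  rfl

end

section

variable {d : ℕ} {X : Type} [TopologicalSpace X] [ChartedSpace (E d) X]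

theorem prim_smooth {K : Set X} {θ : Form d X 1} (hθ : SmoothOff θ K) {F : X → ℝ}
    (hF : PrimOn θ F univ K) {U : Set (E d)} {φ : E d → X} (hU : IsOpen U)
    (hφ : ContMDiffOn (𝓡 d) (𝓡 d) ∞ φ U) (hK : ∀ p ∈ U, φ p ∉ K) :
    ContDiffOn ℝ ∞ (F ∘ φ) U := by
  have h1 := hF U φ hU hφ fun p hp => ⟨hK p hp, mem_univ _⟩
  rw [contDiffOn_infty_iff_fderiv_of_isOpen hU]
  refine ⟨fun p hp => (h1 p hp).differentiableAt.differentiableWithinAt, ?_⟩
  exact (un_smooth (hθ U φ hU hφ hK)).congr fun p hp => (h1 p hp).fderiv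

theorem exp_closed {K : Set X} {σ : Form d X 2} {θ : Form d X 1} (hσ : SmoothOff σ K)
    (hθ : SmoothOff θ K)
    (hd : ∀ (U : Set (E d)) (φ : E d → X), IsOpen U → ContMDiffOn (𝓡 d) (𝓡 d) ∞ φ U →
      (∀ p ∈ U, φ p ∉ K) → ∀ p ∈ U, ∀ u v w : E d, extDeriv (pb φ σ) p ![u, v, w] =
        pb φ θ p ![u] * pb φ σ p ![v, w] - pb φ θ p ![v] * pb φ σ p ![u, w] +
          pb φ θ p ![w] * pb φ σ p ![u, v])
    {F : X → ℝ} (hF : PrimOn θ F univ K) :
    SmoothOff (fun x => Real.exp (-F x) • σ x : Form d X 2) K ∧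
      IsDOff (fun x => Real.exp (-F x) • σ x : Form d X 2) 0 K := by
  have key : ∀ (U : Set (E d)) (φ : E d → X), pb φ (fun x => Real.exp (-F x) • σ x : Form d X 2) =
      fun p => Real.exp (-(F ∘ φ) p) • pb φ σ p := fun U φ => rfl
  constructor
  · intro U φ hU hφ hK
    rw [key U φ]
    exact ((prim_smooth hθ hF hU hφ hK).neg.exp).smul (hσ U φ hU hφ hK)
  · intro U φ hU hφ hK p hp
    rw [key U φ, pb_zero]
    refine zero_of3 fun u v w => ?_
    have h1 := hF U φ hU hφ (fun p hp => ⟨hK p hp, mem_univ _⟩) p hp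
    have h2 : HasFDerivAt (fun q => Real.exp (-(F ∘ φ) q))
        (Real.exp (-(F ∘ φ) p) • (-(un (pb φ θ p)))) p := h1.neg.exp
    have h3 : DifferentiableAt ℝ (pb φ σ) p :=
      ((hσ U φ hU hφ hK).contDiffAt (hU.mem_nhds hp)).differentiableAt (by simp)
    rw [ext_smul3 h2.differentiableAt h3, h2.fderiv, hd U φ hU hφ hK p hp]
    have h4 : ∀ a : E d, (Real.exp (-(F ∘ φ) p) • (-(un (pb φ θ p)))) a =
        -(Real.exp (-(F ∘ φ) p) * pb φ θ p ![a]) := by
      intro a
      rw [← un_apply]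
      change Real.exp (-(F ∘ φ) p) * (-(un (pb φ θ p) a)) = _
      ring
    rw [h4, h4, h4]
    ring

end

end Pool.Agent.U896.LS
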